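import Mathlib.Topology.Separation.Regular
import Mathlib.Topology.Compactness.Compact
import Mathlib.Topology.Constructions
import Mathlib.Topology.Order
import Mathlib.Data.Fintype.Card
import Mathlib.Tactic

set_option autoImplicit false

/-!
# A countable space which is not `k`-Lindelöf
-/

open Set Topology

namespace Pool.Agent.Results.MP_a2c218_gt.CountableTreeSpace

section
variable {X : Type} [TopologicalSpace X]

/-- `𝒰` is an `ω`-cover of `X`. -/
def IsOmegaCover (𝒰 : Set (Set X)) : Prop :=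
  (∀ U ∈ 𝒰, IsOpen U) ∧ univ ∉ 𝒰 ∧ ∀ F : Set X, F.Finite → ∃ U ∈ 𝒰, F ⊆ U

/-- `𝒰` is a `k`-cover of `X`. -/
def IsKCover (𝒰 : Set (Set X)) : Prop :=
  (∀ U ∈ 𝒰, IsOpen U) ∧ univ ∉ 𝒰 ∧ ∀ K : Set X, IsCompact K → ∃ U ∈ 𝒰, K ⊆ U

variable (X) in
/-- Every `ω`-cover contains a countable `ω`-cover. -/
def OmegaLindelof : Prop :=
  ∀ 𝒰 : Set (Set X), IsOmegaCover 𝒰 → ∃ 𝒱 ⊆ 𝒰, 𝒱.Countable ∧ IsOmegaCover 𝒱

variable (X) in
/-- Every `k`-cover contains a countable `k`-cover. -/
def KLindelof : Prop :=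
  ∀ 𝒰 : Set (Set X), IsKCover 𝒰 → ∃ 𝒱 ⊆ 𝒰, 𝒱.Countable ∧ IsKCover 𝒱

end

/-- The `n`-th node of the branch `b` of the binary tree. -/
def node (b : ℕ → Bool) (n : ℕ) : List Bool := (List.range n).map b

theorem length_node (b : ℕ → Bool) (n : ℕ) : (node b n).length = n := by simp [node]

theorem node_eq {b c : ℕ → Bool} {n : ℕ} : node b n = node c n ↔ ∀ i < n, b i = c i := by
  simp [node]

theorem take_node (b : ℕ → Bool) {m n : ℕ} (h : m ≤ n) : (node b n).take m = node b m := by
  simp [node, ← List.map_take, List.take_range, h]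

/-- The space: the nodes of the binary tree and one more point. -/
def Sp : Type := Option (List Bool)

/-- A node as a point. -/
def pt (s : List Bool) : Sp := some s

/-- The point at infinity. -/
def inf : Sp := none

theorem pt_inj {s t : List Bool} : pt s = pt t ↔ s = t := Option.some_inj

theorem inf_ne (s : List Bool) : inf ≠ pt s := Option.some_ne_none s |>.symm

/-- Nodes are isolated; the neighbourhoods of infinity contain almost all nodes of each branch. -/
instance : TopologicalSpace Sp where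
  IsOpen U := inf ∈ U → ∀ b : ℕ → Bool, {n : ℕ | pt (node b n) ∉ U}.Finite
  isOpen_univ := by intro _ b; simp
  isOpen_inter := by
    intro U V hU hV h b
    refine ((hU h.1 b).union (hV h.2 b)).subset ?_
    intro n hn
    by_contra hcon
    simp only [mem_union, mem_ofPred_eq, not_or, not_not] at hcon
    exact hn ⟨hcon.1, hcon.2⟩
  isOpen_sUnion := by
    rintro 𝒰 h ⟨U, hU, hi⟩ b
    refine (h U hU hi b).subset ?_
    intro n hn hnU
    exact hn ⟨U, hU, hnU⟩

theorem isOpen_iff {U : Set Sp} :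
    IsOpen U ↔ (inf ∈ U → ∀ b : ℕ → Bool, {n : ℕ | pt (node b n) ∉ U}.Finite) := Iff.rfl

theorem isOpen_of_inf_not {U : Set Sp} (h : inf ∉ U) : IsOpen U := fun h' => absurd h' h

instance : Countable Sp := inferInstanceAs (Countable (Option (List Bool)))

theorem sp_cases (x : Sp) : x = inf ∨ ∃ s, x = pt s := by
  rcases x with _ | s
  · exact Or.inl rfl
  · exact Or.inr ⟨s, rfl⟩

theorem isOpen_compl_pt (s : List Bool) : IsOpen ({pt s}ᶜ : Set Sp) := by
  intro _ b
  refine (Set.finite_singleton s.length).subset ?_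
  intro n hn
  simp only [mem_compl_iff, mem_singleton_iff, not_not, mem_ofPred_eq, pt_inj] at hn
  rw [mem_singleton_iff, ← hn, length_node]

instance : T2Space Sp := by
  refine ⟨fun x y hxy => ?_⟩
  have aux : ∀ (s : List Bool) (y : Sp), pt s ≠ y → ∃ u v : Set Sp, IsOpen u ∧ IsOpen v ∧
      pt s ∈ u ∧ y ∈ v ∧ Disjoint u v := by
    intro s y h
    exact ⟨{pt s}, {pt s}ᶜ, isOpen_of_inf_not (by simpa using inf_ne s), isOpen_compl_pt s,
      rfl, fun h' => h (by simpa using h'.symm), disjoint_compl_right⟩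
  rcases sp_cases x with rfl | ⟨s, rfl⟩
  · rcases sp_cases y with rfl | ⟨t, rfl⟩
    · exact absurd rfl hxy
    · obtain ⟨u, v, hu, hv, h1, h2, h3⟩ := aux t inf hxy.symm
      exact ⟨v, u, hv, hu, h2, h1, h3.symm⟩
  · exact aux s y hxy

instance : RegularSpace Sp := by
  refine .of_exists_mem_nhds_isClosed_subset fun x s hs => ?_
  obtain ⟨U, hUs, hU, hxU⟩ := mem_nhds_iff.1 hs
  rcases sp_cases x with rfl | ⟨t, rfl⟩
  · refine ⟨U, hU.mem_nhds hxU, ?_, hUs⟩
    rw [← isOpen_compl_iff]
    exact isOpen_of_inf_not (fun h => h hxU)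
  · refine ⟨{pt t}, IsOpen.mem_nhds (isOpen_of_inf_not (by simpa using inf_ne t)) rfl, ?_, ?_⟩
    · rw [← isOpen_compl_iff]
      exact isOpen_compl_pt t
    · rintro _ rfl
      exact hUs hxU

/-- A compact set meets each set of nodes almost disjoint from all branches in a finite set. -/
theorem compact_inter {K : Set Sp} (hK : IsCompact K) {A : Set (List Bool)}
    (hA : ∀ b : ℕ → Bool, {n | node b n ∈ A}.Finite) : {s | s ∈ A ∧ pt s ∈ K}.Finite := by
  classical
  let U : Sp → Set Sp := fun i => if i = inf then (pt '' A)ᶜ else {i}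
  have hUo : ∀ i, IsOpen (U i) := by
    intro i
    simp only [U]
    split_ifs with h
    · intro _ b
      refine (hA b).subset ?_
      intro n hn
      simp only [mem_ofPred_eq, mem_compl_iff, not_not, mem_image] at hn
      obtain ⟨s, hs, hsn⟩ := hn
      rw [pt_inj] at hsn
      rw [mem_ofPred_eq, ← hsn]
      exact hs
    · exact isOpen_of_inf_not (fun h' => h (by simpa using h'.symm))
  have hcov : K ⊆ ⋃ i, U i := by
    intro x _
    rw [mem_iUnion]
    by_cases hx : x = inf
    · refine ⟨inf, ?_⟩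
      simp only [U, if_true, hx]
      rintro ⟨s, _, hs⟩
      exact inf_ne s hs.symm
    · exact ⟨x, by simp [U, hx]⟩
  obtain ⟨t, ht⟩ := hK.elim_finite_subcover U hUo hcov
  refine Set.Finite.of_finite_image (f := pt) ((Finset.finite_toSet t).subset ?_)
    (fun s _ s' _ h => pt_inj.1 h)
  rintro _ ⟨s, ⟨hsA, hsK⟩, rfl⟩
  obtain ⟨i, hi, hsi⟩ := mem_iUnion₂.1 (ht hsK)
  simp only [U] at hsi
  split_ifs at hsi with h
  · exact absurd ⟨s, hsA, rfl⟩ hsi
  · rw [mem_singleton_iff] at hsi
    rw [hsi]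
    exact hi

/-- Only finitely many branches meet a compact set in an infinite set. -/
theorem finite_branches {K : Set Sp} (hK : IsCompact K) :
    {b : ℕ → Bool | {n | pt (node b n) ∈ K}.Infinite}.Finite := by
  by_contra hcon
  obtain ⟨c, hc⟩ := Set.Infinite.exists_accPt_principal hcon
  rw [accPt_iff_nhds] at hc
  have hstep : ∀ n : ℕ, ∃ s : List Bool, n < s.length ∧ pt s ∈ K ∧ s.take n = node c n ∧
      ∀ k, s ≠ node c k := by
    intro n
    obtain ⟨b, ⟨hb1, hb2⟩, hb3⟩ := hc {b | ∀ i < n, b i = c i} (by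
      have : {b : ℕ → Bool | ∀ i < n, b i = c i} = ⋂ i ∈ Finset.range n, {b | b i = c i} := by
        ext b; simp
      rw [this]
      refine (Filter.biInter_finset_mem _).2 fun i _ => ?_
      exact IsOpen.mem_nhds (s := (fun b : ℕ → Bool => b i) ⁻¹' {c i})
        ((isOpen_discrete {c i}).preimage (continuous_apply i)) rfl)
    have hne : ∃ i, b i ≠ c i := by
      by_contra h
      push Not at h
      exact hb3 (funext h)
    obtain ⟨i, hi⟩ := hne
    obtain ⟨k, hk1, hk2⟩ := (hb2 : {n | pt (node b n) ∈ K}.Infinite).exists_gt (max n i)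
    have hk3 : n < k := lt_of_le_of_lt (le_max_left _ _) hk2
    have hk4 : i < k := lt_of_le_of_lt (le_max_right _ _) hk2
    refine ⟨node b k, by rwa [length_node], hk1, ?_, ?_⟩
    · rw [take_node b hk3.le, node_eq]
      exact hb1
    · intro k' h
      have : k = k' := by
        have := congrArg List.length h
        simpa [length_node] using this
      subst this
      rw [node_eq] at h
      exact hi (h i hk4)
  choose s hs1 hs2 hs3 hs4 using hstep
  have hA : ∀ b : ℕ → Bool, {n | node b n ∈ range s}.Finite := by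
    intro d
    by_cases hd : d = c
    · subst hd
      convert Set.finite_empty (α := ℕ)
      ext n
      simp only [mem_ofPred_eq, mem_range, mem_empty_iff_false, iff_false, not_exists]
      intro m hm
      exact hs4 m n hm
    · have hne : ∃ m, d m ≠ c m := by
        by_contra h
        push Not at h
        exact hd (funext h)
      obtain ⟨m, hm⟩ := hne
      refine ((Finset.range (m + 1)).finite_toSet.image fun k => (s k).length).subset ?_
      rintro n ⟨k, hk⟩
      refine ⟨k, ?_, by simp only [hk, length_node]⟩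
      rw [Finset.mem_coe, Finset.mem_range]
      by_contra hkm
      have h1 := hs3 k
      have h2 := hs1 k
      rw [hk, length_node] at h2
      rw [hk, take_node d h2.le, node_eq] at h1
      exact hm (h1 m (by omega))
  have hfin := compact_inter hK hA
  have himg : (List.length '' {x | x ∈ range s ∧ pt x ∈ K}).Finite := hfin.image _
  obtain ⟨M, hM⟩ := himg.bddAbove
  have := hM ⟨s M, ⟨⟨M, rfl⟩, hs2 M⟩, rfl⟩
  have h1 := hs1 M
  omega

/-- Description of compact sets. -/
theorem compact_bound {K : Set Sp} (hK : IsCompact K) :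
    ∃ (F : Finset (ℕ → Bool)) (n : ℕ), ∀ s, pt s ∈ K → n ≤ s.length →
      ∃ b ∈ F, s = node b s.length := by
  classical
  have hfb := finite_branches hK
  let A : Set (List Bool) := {s | pt s ∈ K ∧ ∀ b ∈ hfb.toFinset, s ≠ node b s.length}
  have hA : ∀ b : ℕ → Bool, {n | node b n ∈ A}.Finite := by
    intro b
    by_cases hb : b ∈ hfb.toFinset
    · convert Set.finite_empty (α := ℕ)
      ext n
      simp only [A, mem_ofPred_eq, mem_empty_iff_false, iff_false, not_and]
      intro _ h
      exact h b hb (by rw [length_node])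
    · rw [Set.Finite.mem_toFinset] at hb
      simp only [mem_ofPred_eq, Set.not_infinite] at hb
      exact hb.subset fun n hn => hn.1
  have hfin := compact_inter hK hA
  obtain ⟨M, hM⟩ := (hfin.image List.length).bddAbove
  refine ⟨hfb.toFinset, M + 1, fun s hs hM' => ?_⟩
  by_contra hcon
  push Not at hcon
  have := hM ⟨s, ⟨⟨hs, hcon⟩, hs⟩, rfl⟩
  omega

/-- The minimal nodes of length at least `n` outside the union of the branches in `F`. -/
def A (F : Finset (ℕ → Bool)) (n : ℕ) : Set (List Bool) :=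
  {s | n ≤ s.length ∧ (∀ b ∈ F, s ≠ node b s.length) ∧
    ∀ m, n ≤ m → m < s.length → ∃ b ∈ F, s.take m = node b m}

/-- The complement. -/
def U (F : Finset (ℕ → Bool)) (n : ℕ) : Set Sp := (pt '' A F n)ᶜ

theorem A_subsingleton (F : Finset (ℕ → Bool)) (n : ℕ) (b : ℕ → Bool) :
    {k | node b k ∈ A F n}.Subsingleton := by
  have aux : ∀ k l, node b k ∈ A F n → node b l ∈ A F n → ¬ k < l := by
    intro k l hk hl hkl
    have h1 := hk.1
    rw [length_node] at h1
    obtain ⟨c, hc, hc2⟩ := hl.2.2 k h1 (by rwa [length_node])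
    rw [take_node b hkl.le] at hc2
    exact hk.2.1 c hc (by rw [length_node]; exact hc2)
  intro k hk l hl
  rcases lt_trichotomy k l with h | h | h
  · exact absurd h (aux k l hk hl)
  · exact h
  · exact absurd h (aux l k hl hk)

theorem isOpen_U (F : Finset (ℕ → Bool)) (n : ℕ) : IsOpen (U F n) := by
  intro _ b
  refine (A_subsingleton F n b).finite.subset ?_
  intro k hk
  simp only [U, mem_compl_iff, not_not, mem_image, mem_ofPred_eq] at hk
  obtain ⟨s, hs, hsk⟩ := hk
  rw [pt_inj] at hsk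
  rw [mem_ofPred_eq, ← hsk]
  exact hs

theorem exists_mem_A (F : Finset (ℕ → Bool)) (n : ℕ) {b : ℕ → Bool} (hb : b ∉ F) :
    ∃ k, node b k ∈ A F n := by
  classical
  have h1 : ∀ c ∈ F, ∃ i, b i ≠ c i := by
    intro c hc
    by_contra h
    push Not at h
    exact hb ((funext h : b = c) ▸ hc)
  choose! i hi using h1
  have hex : ∃ m, n ≤ m ∧ ∀ c ∈ F, node b m ≠ node c m := by
    refine ⟨max n (F.sup i + 1), le_max_left _ _, fun c hc h => ?_⟩
    rw [node_eq] at h
    refine hi c hc (h _ ?_)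
    have := Finset.le_sup (f := i) hc
    exact lt_of_lt_of_le (Nat.lt_succ_of_le this) (le_max_right _ _)
  have hspec := Nat.find_spec hex
  refine ⟨Nat.find hex, ?_, ?_, ?_⟩
  · rw [length_node]; exact hspec.1
  · rw [length_node]; exact hspec.2
  · intro m hnm hm
    rw [length_node] at hm
    have := Nat.find_min hex hm
    push Not at this
    obtain ⟨c, hc, hc2⟩ := this hnm
    exact ⟨c, hc, by rw [take_node b hm.le]; exact hc2⟩

theorem branch_infinite (F : Set (ℕ → Bool)) (hF : F.Countable) : ∃ b, b ∉ F := by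
  by_contra h
  push Not at h
  have : (univ : Set (ℕ → Bool)) ⊆ F := fun b _ => h b
  have h2 : (univ : Set (ℕ → Bool)).Countable := hF.mono this
  rw [Set.countable_univ_iff] at h2
  obtain ⟨f, hf⟩ := exists_surjective_nat (ℕ → Bool)
  obtain ⟨n, hn⟩ := hf fun n => !(f n n)
  have := congrFun hn n
  simp at this

/-- The canonical `k`-cover. -/
theorem isKCover : IsKCover {V | ∃ (F : Finset (ℕ → Bool)) (n : ℕ), V = U F n} := by
  refine ⟨?_, ?_, ?_⟩
  · rintro _ ⟨F, n, rfl⟩
    exact isOpen_U F n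
  · rintro ⟨F, n, h⟩
    obtain ⟨b, hb⟩ := branch_infinite F F.countable_toSet
    obtain ⟨k, hk⟩ := exists_mem_A F n (b := b) hb
    have : pt (node b k) ∈ U F n := by rw [← h]; trivial
    exact this ⟨_, hk, rfl⟩
  · intro K hK
    obtain ⟨F, n, h⟩ := compact_bound hK
    refine ⟨U F n, ⟨F, n, rfl⟩, ?_⟩
    rintro x hx ⟨s, hs, rfl⟩
    obtain ⟨b, hb, hb2⟩ := h s hx hs.1
    exact hs.2.1 b hb hb2

/-- A branch together with infinity is compact. -/
theorem isCompact_branch (b : ℕ → Bool) : IsCompact (insert inf (range fun n => pt (node b n))) := by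
  classical
  apply isCompact_of_finite_subcover
  intro ι V hVo hV
  obtain ⟨i₀, hi₀⟩ := mem_iUnion.1 (hV (mem_insert _ _))
  have hfin := hVo i₀ hi₀ b
  have hsub : ∀ n, ∃ i, pt (node b n) ∈ V i := fun n =>
    mem_iUnion.1 (hV (mem_insert_of_mem _ ⟨n, rfl⟩))
  choose j hj using hsub
  refine ⟨insert i₀ (hfin.toFinset.image j), ?_⟩
  rintro x (rfl | ⟨n, rfl⟩)
  · exact mem_iUnion₂.2 ⟨i₀, by simp, hi₀⟩
  · by_cases hn : pt (node b n) ∈ V i₀
    · exact mem_iUnion₂.2 ⟨i₀, by simp, hn⟩
    · refine mem_iUnion₂.2 ⟨j n, ?_, hj n⟩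
      rw [Finset.mem_insert, Finset.mem_image]
      exact Or.inr ⟨n, by simpa using hn, rfl⟩

theorem not_kLindelof : ¬ KLindelof Sp := by
  intro h
  obtain ⟨𝒱, h𝒱, hc, hk⟩ := h _ isKCover
  have hex : ∀ V ∈ 𝒱, ∃ (F : Finset (ℕ → Bool)) (n : ℕ), V = U F n := fun V hV => h𝒱 hV
  choose! F n hFn using hex
  obtain ⟨b, hb⟩ := branch_infinite (⋃ V ∈ 𝒱, (F V : Set (ℕ → Bool)))
    (hc.biUnion fun V _ => (F V).countable_toSet)
  obtain ⟨V, hV, hVb⟩ := hk.2.2 _ (isCompact_branch b)
  have hbV : b ∉ F V := fun h' => hb (mem_iUnion₂.2 ⟨V, hV, h'⟩)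
  obtain ⟨k, hk⟩ := exists_mem_A (F V) (n V) hbV
  have h1 : pt (node b k) ∈ V := hVb (mem_insert_of_mem _ ⟨k, rfl⟩)
  rw [hFn V hV] at h1
  exact h1 ⟨_, hk, rfl⟩

theorem omegaLindelof_of_countable (X : Type) [TopologicalSpace X] [Countable X] :
    OmegaLindelof X := by
  intro 𝒰 h𝒰
  choose! V hV1 hV2 using h𝒰.2.2
  have hfc : {F : Set X | F.Finite}.Countable := by
    refine (Set.countable_ofPred_finite_subset (Set.countable_univ (α := X))).mono ?_
    intro F hF
    exact ⟨hF, Set.subset_univ F⟩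
  have hc : (V '' {F : Set X | F.Finite}).Countable := hfc.image V
  refine ⟨V '' {F | F.Finite}, ?_, hc, ?_, ?_, ?_⟩
  · rintro _ ⟨F, hF, rfl⟩
    exact hV1 F hF
  · rintro _ ⟨F, hF, rfl⟩
    exact h𝒰.1 _ (hV1 F hF)
  · rintro ⟨F, hF, h⟩
    apply h𝒰.2.1
    rw [← h]
    exact hV1 F hF
  · intro F hF
    exact ⟨V F, ⟨F, hF, rfl⟩, hV2 F hF⟩

/-- There is a countable, Hausdorff and regular space which is `ω`-Lindelöf and not
`k`-Lindelöf. -/
theorem result : ∃ (X : Type) (_ : TopologicalSpace X),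
    Countable X ∧ T2Space X ∧ RegularSpace X ∧ OmegaLindelof X ∧ ¬ KLindelof X :=
  ⟨Sp, inferInstance, inferInstance, inferInstance, inferInstance,
    omegaLindelof_of_countable Sp, not_kLindelof⟩

end Pool.Agent.Results.MP_a2c218_gt.CountableTreeSpace
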